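import Mathlib

set_option autoImplicit false

/-!
# Multiplicative relations among the full set of conjugates

Negative answer to the converse of Smyth's theorem: in every degree `d ≥ 2` there is an
exponent vector `b` with all entries `1` or `-1` which satisfies neither (A) nor (B), but for
which the relation `α₁ ^ b₁ ⋯ α_d ^ b_d = 1` has no solution at all in algebraic numbers of
degree `d`.
-/

namespace Pool.Agent.Results.MP_e29efe_nt.ConverseFails

open Polynomial

/-- Condition (A): some `|b i|` is larger than the sum of all the other `|b j|`. -/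
def CondA {d : ℕ} (b : Fin d → ℤ) : Prop :=
  ∃ i, ∑ j ∈ Finset.univ.erase i, |b j| < |b i|

/-- Condition (B): for some index `i` and some prime `p`, `p` does not divide `b i` but divides
every other `b j`. -/
def CondB {d : ℕ} (b : Fin d → ℤ) : Prop :=
  ∃ i, ∃ p : ℕ, p.Prime ∧ ¬ (p : ℤ) ∣ b i ∧ ∀ j, j ≠ i → (p : ℤ) ∣ b j

/-- `(α, c)` is a solution of `(R_b)`: `α` is a nonzero algebraic number of degree `d`, the tuple
`c` is an ordering of its `d` distinct conjugates (the complex roots of its minimal polynomial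
over `ℚ`, each listed once), and `∏ c i ^ b i = 1`. -/
def IsSolution {d : ℕ} (b : Fin d → ℤ) (α : ℂ) (c : Fin d → ℂ) : Prop :=
  α ≠ 0 ∧ IsAlgebraic ℚ α ∧ (minpoly ℚ α).natDegree = d ∧
    Function.Injective c ∧ Set.range c = (minpoly ℚ α).rootSet ℂ ∧
    ∏ i, c i ^ b i = 1

/-- The exponent vector `(1, …, 1, -1)`. -/
def vec (d : ℕ) (h : 2 ≤ d) : Fin d → ℤ := fun i => if i = ⟨d - 1, by omega⟩ then -1 else 1

theorem vec_pm (d : ℕ) (h : 2 ≤ d) (i : Fin d) : vec d h i = 1 ∨ vec d h i = -1 := by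
  unfold vec
  split_ifs
  · right; rfl
  · left; rfl

theorem vec_abs (d : ℕ) (h : 2 ≤ d) (i : Fin d) : |vec d h i| = 1 := by
  rcases vec_pm d h i with h1 | h1 <;> rw [h1] <;> rfl

theorem exists_ne (d : ℕ) (h : 2 ≤ d) (i : Fin d) : ∃ j : Fin d, j ≠ i := by
  by_cases hi : i.val = 0
  · refine ⟨⟨1, by omega⟩, fun hh => ?_⟩
    have := congrArg Fin.val hh
    simp at this
    omega
  · refine ⟨⟨0, by omega⟩, fun hh => ?_⟩
    have := congrArg Fin.val hh
    simp at this
    omega

theorem not_condA (d : ℕ) (h : 2 ≤ d) : ¬ CondA (vec d h) := by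
  rintro ⟨i, hi⟩
  simp only [vec_abs] at hi
  obtain ⟨j, hj⟩ := exists_ne d h i
  have h1 : j ∈ Finset.univ.erase i := Finset.mem_erase.2 ⟨hj, Finset.mem_univ _⟩
  have h2 : (1 : ℤ) ≤ ∑ _j ∈ Finset.univ.erase i, (1 : ℤ) :=
    Finset.single_le_sum (f := fun _ => (1 : ℤ)) (fun _ _ => zero_le_one) h1
  omega

theorem not_condB (d : ℕ) (h : 2 ≤ d) : ¬ CondB (vec d h) := by
  rintro ⟨i, p, hp, -, hj⟩
  obtain ⟨j, hji⟩ := exists_ne d h i
  have h1 := hj j hji
  have h2 : (p : ℤ) ∣ 1 := by
    rcases vec_pm d h j with h3 | h3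
    · rw [h3] at h1; exact h1
    · rw [h3] at h1; exact (dvd_neg.1 h1)
  have h3 : p ∣ 1 := by exact_mod_cast h2
  exact hp.one_lt.ne' (Nat.dvd_one.1 h3)

/-- The product of all conjugates is rational. -/
theorem prod_conj {d : ℕ} {α : ℂ} {c : Fin d → ℂ} (hα : IsAlgebraic ℚ α)
    (hinj : Function.Injective c) (hr : Set.range c = (minpoly ℚ α).rootSet ℂ) :
    ∃ q : ℚ, ∏ i, c i = (q : ℂ) := by
  classical
  have hint : IsIntegral ℚ α := hα.isIntegral
  have hmonic := minpoly.monic hint
  have hirr := minpoly.irreducible hint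
  have hsep : ((minpoly ℚ α).map (algebraMap ℚ ℂ)).roots.Nodup :=
    nodup_roots (hirr.separable.map)
  have hsplit : ((minpoly ℚ α).map (algebraMap ℚ ℂ)).Splits :=
    IsAlgClosed.splits _
  have hms : ((minpoly ℚ α).map (algebraMap ℚ ℂ)).roots = Finset.univ.val.map c := by
    apply Multiset.Nodup.ext hsep ((Multiset.nodup_map_iff_of_injective hinj).2 Finset.univ.nodup) |>.2
    intro x
    constructor
    · intro hx
      have h1 : x ∈ (minpoly ℚ α).rootSet ℂ := by
        rw [mem_rootSet]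
        refine ⟨hmonic.ne_zero, ?_⟩
        have := (mem_roots'.1 hx).2
        rwa [IsRoot.def, eval_map_algebraMap] at this
      rw [← hr] at h1
      obtain ⟨i, hi⟩ := h1
      exact Multiset.mem_map.2 ⟨i, Finset.mem_univ_val i, hi⟩
    · intro hx
      obtain ⟨i, -, hi⟩ := Multiset.mem_map.1 hx
      have h1 : x ∈ (minpoly ℚ α).rootSet ℂ := by
        rw [← hr]; exact ⟨i, hi⟩
      rw [mem_rootSet] at h1
      rw [mem_roots (hmonic.map _).ne_zero, IsRoot.def, eval_map_algebraMap]
      exact h1.2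
  have hcoeff := hsplit.coeff_zero_eq_prod_roots_of_monic (hmonic.map _)
  rw [hms, coeff_map] at hcoeff
  refine ⟨(-1) ^ ((minpoly ℚ α).map (algebraMap ℚ ℂ)).natDegree * (minpoly ℚ α).coeff 0, ?_⟩
  have h2 : (Finset.univ.val.map c).prod = ∏ i, c i := rfl
  rw [h2] at hcoeff
  push_cast
  have h3 : ((minpoly ℚ α).coeff 0 : ℂ) = algebraMap ℚ ℂ ((minpoly ℚ α).coeff 0) := rfl
  rw [h3, hcoeff, ← mul_assoc, ← mul_pow]
  simp

/-- **Main theorem.** For every degree `d ≥ 2` there is an exponent vector with entries `±1`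
satisfying neither (A) nor (B), for which `(R_b)` has no solution at all of degree `d` (in
particular none in which `α` is not a root of unity). -/
theorem result : ∀ d : ℕ, 2 ≤ d → ∃ b : Fin d → ℤ,
    (∀ i, b i = 1 ∨ b i = -1) ∧ ¬ CondA b ∧ ¬ CondB b ∧
      ¬ ∃ (α : ℂ) (c : Fin d → ℂ), IsSolution b α c := by
  intro d hd
  refine ⟨vec d hd, vec_pm d hd, not_condA d hd, not_condB d hd, ?_⟩
  rintro ⟨α, c, hα0, hα, hdeg, hinj, hr, hprod⟩
  have hint : IsIntegral ℚ α := hα.isIntegral
  have hirr := minpoly.irreducible hint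
  have hmonic := minpoly.monic hint
  -- all conjugates are nonzero
  have hroot : ∀ i, aeval (c i) (minpoly ℚ α) = 0 := by
    intro i
    have : c i ∈ (minpoly ℚ α).rootSet ℂ := by rw [← hr]; exact ⟨i, rfl⟩
    exact (mem_rootSet.1 this).2
  have hmp : ∀ i, minpoly ℚ (c i) = minpoly ℚ α := by
    intro i
    exact (minpoly.eq_of_irreducible_of_monic hirr (hroot i) hmonic).symm
  have hne : ∀ i, c i ≠ 0 := by
    intro i h0
    have h1 : IsIntegral ℚ (c i) := ⟨minpoly ℚ α, hmonic, by simpa [aeval_def] using hroot i⟩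
    have h2 := hmp i
    rw [h0, minpoly.zero] at h2
    have h3 : aeval α (X : ℚ[X]) = 0 := by rw [h2]; exact minpoly.aeval ℚ α
    rw [aeval_X] at h3
    exact hα0 h3
  set l : Fin d := ⟨d - 1, by omega⟩ with hl
  -- the relation says `∏ c i = (c l)^2`
  have hrel : ∏ i, c i = c l ^ 2 := by
    have h1 : ∏ i, c i ^ vec d hd i = (∏ i, c i) * (c l ^ 2)⁻¹ := by
      rw [← Finset.mul_prod_erase Finset.univ _ (Finset.mem_univ l),
        ← Finset.mul_prod_erase Finset.univ c (Finset.mem_univ l)]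
      have h2 : ∏ x ∈ Finset.univ.erase l, c x ^ vec d hd x = ∏ x ∈ Finset.univ.erase l, c x := by
        apply Finset.prod_congr rfl
        intro x hx
        have hx' : x ≠ l := (Finset.mem_erase.1 hx).1
        have : vec d hd x = 1 := by
          unfold vec
          rw [if_neg hx']
        rw [this, zpow_one]
      have h3 : vec d hd l = -1 := by
        unfold vec
        rw [if_pos rfl]
      rw [h2, h3, zpow_neg, zpow_one]
      have := hne l
      field_simp
    rw [h1] at hprod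
    have h4 : c l ^ 2 ≠ 0 := pow_ne_zero _ (hne l)
    exact (mul_inv_eq_one₀ h4).1 hprod
  rcases Nat.lt_or_ge 2 d with h3 | h3
  · -- `d ≥ 3`: `c l` is a root of `X^2 - q`
    obtain ⟨q, hq⟩ := prod_conj hα hinj hr
    have h1 : aeval (c l) (X ^ 2 - C q : ℚ[X]) = 0 := by
      simp only [map_sub, map_pow, aeval_X, aeval_C]
      rw [← hrel, hq]
      simp
    have h2 : (X ^ 2 - C q : ℚ[X]).natDegree = 2 := natDegree_X_pow_sub_C
    have h4 : (X ^ 2 - C q : ℚ[X]) ≠ 0 := by
      intro h0
      rw [h0] at h2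
      simp at h2
    have h5 : (minpoly ℚ (c l)).natDegree ≤ 2 := by
      have := natDegree_le_of_dvd (minpoly.dvd ℚ (c l) h1) h4
      rwa [h2] at this
    rw [hmp l, hdeg] at h5
    omega
  · -- `d = 2`
    have hd2 : d = 2 := le_antisymm h3 hd
    subst hd2
    rw [Fin.prod_univ_two] at hrel
    have hl1 : l = 1 := rfl
    rw [hl1, pow_two] at hrel
    have h01 : c 0 = c 1 := mul_right_cancel₀ (hne 1) hrel
    have := hinj h01
    exact absurd this (by decide)

end Pool.Agent.Results.MP_e29efe_nt.ConverseFails
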